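import Pool.Agent.L7h19.IS.Stm
import Pool.Agent.L7h19.RP.Exp
import Pool.Agent.W762.RK2.EXP4b

/-!
# Project IS: the expansion `S_EXP`
-/

set_option autoImplicit false
set_option linter.all false

namespace Pool.Agent.L7h65.IS

open Finset Polynomial Pool.Agent.W262.RK Pool.Agent.W108.RK Pool.Agent.W762.RK2 Pool.Agent.L7h19.RP
  Pool.Agent.L7h19.IS
open Pool.Agent.L7h19.RP.AT (gm)

section nb

variable {z y : ℕ}

lemma nb_ne_one (b : Pr z y → Bool) : nb b ≠ 1 ↔ ∃ p, b p = true := by
  constructor
  · intro h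
    by_contra hno
    push Not at hno
    apply h
    unfold nb
    refine Finset.prod_eq_one fun p _ => ?_
    rw [if_neg (hno p)]
  · rintro ⟨p, hp⟩ h
    have h1 := (dvd_nb b p).2 hp
    rw [h] at h1
    exact (Pr_prime p).one_lt.ne' (Nat.dvd_one.1 h1)

lemma dvd_of_dvd_nb {b : Pr z y → Bool} {d : ℕ} (hd : d ∣ nb b) {p : Pr z y} (h : (p : ℕ) ∣ d) :
    b p = true := (dvd_nb b p).1 (h.trans hd)

/-- The sum over the pairs of divisors. -/
lemma sum_div (a b : Pr z y → Bool) (hab : ∀ p, a p = true → b p = true → False)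
    (G : ℕ → ℕ → ℝ) :
    ∑ μ ∈ univ.filter (fun μ : Pr z y → Bool => ∀ p, μ p = true → (a p || b p) = true),
      G (nb fun p => a p && μ p) (nb fun p => b p && μ p) =
    ∑ d ∈ (nb a).divisors, ∑ e ∈ (nb b).divisors, G d e := by
  rw [← Finset.sum_product' (nb a).divisors (nb b).divisors G]
  refine Finset.sum_nbij' (fun μ => (nb fun p => a p && μ p, nb fun p => b p && μ p))
    (fun x => fun p => decide ((p : ℕ) ∣ x.1 * x.2)) ?_ ?_ ?_ ?_ ?_
  · intro μ _
    rw [mem_product, Nat.mem_divisors, Nat.mem_divisors]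
    exact ⟨⟨nb_dvd fun p hp => (Bool.and_eq_true_iff.1 hp).1, nb_ne_zero _⟩,
      ⟨nb_dvd fun p hp => (Bool.and_eq_true_iff.1 hp).1, nb_ne_zero _⟩⟩
  · rintro ⟨d, e⟩ h
    rw [mem_product, Nat.mem_divisors, Nat.mem_divisors] at h
    rw [mem_filter]
    refine ⟨mem_univ _, fun p hp => ?_⟩
    have h1 : (p : ℕ) ∣ d * e := of_decide_eq_true hp
    rcases (Pr_prime p).dvd_or_dvd h1 with h2 | h2
    · rw [dvd_of_dvd_nb h.1.1 h2, Bool.true_or]
    · rw [dvd_of_dvd_nb h.2.1 h2, Bool.or_true]
  · intro μ hμ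
    rw [mem_filter] at hμ
    funext p
    rw [Bool.eq_iff_iff, decide_eq_true_iff]
    show (p : ℕ) ∣ (nb fun p => a p && μ p) * (nb fun p => b p && μ p) ↔ μ p = true
    rw [(Pr_prime p).dvd_mul, dvd_nb, dvd_nb, Bool.and_eq_true_iff, Bool.and_eq_true_iff]
    have h1 := hμ.2 p
    rw [Bool.or_eq_true_iff] at h1
    tauto
  · rintro ⟨d, e⟩ h
    rw [mem_product, Nat.mem_divisors, Nat.mem_divisors] at h
    obtain ⟨⟨hd, -⟩, ⟨he, -⟩⟩ := h
    have hd' : d ∣ PP z y := hd.trans (nb_dvd_PP a)
    have he' : e ∣ PP z y := he.trans (nb_dvd_PP b)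
    refine Prod.ext ?_ ?_
    · show nb (fun p : Pr z y => a p && decide ((p : ℕ) ∣ d * e)) = d
      conv_rhs => rw [← nb_eq hd']
      congr 1
      funext p
      rw [Bool.eq_iff_iff, Bool.and_eq_true_iff, decide_eq_true_iff, decide_eq_true_iff,
        (Pr_prime p).dvd_mul]
      constructor
      · rintro ⟨h1, h2 | h2⟩
        · exact h2
        · exact absurd (dvd_of_dvd_nb he h2) fun h3 => hab p h1 h3
      · intro h1
        exact ⟨dvd_of_dvd_nb hd h1, Or.inl h1⟩
    · show nb (fun p : Pr z y => b p && decide ((p : ℕ) ∣ d * e)) = e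
      conv_rhs => rw [← nb_eq he']
      congr 1
      funext p
      rw [Bool.eq_iff_iff, Bool.and_eq_true_iff, decide_eq_true_iff, decide_eq_true_iff,
        (Pr_prime p).dvd_mul]
      constructor
      · rintro ⟨h1, h2 | h2⟩
        · exact absurd (dvd_of_dvd_nb hd h2) fun h3 => hab p h3 h1
        · exact h2
      · intro h1
        exact ⟨dvd_of_dvd_nb he h1, Or.inr h1⟩
  · intro μ _
    rfl

end nb

variable {J : Type} [Fintype J] [DecidableEq J] {z y : ℕ}

/-- the label is of type `r` -/
def tt (cB : J → Bool) (r : Bool) (x : Option J) : Bool := x.elim false fun j => decide (cB j = r)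

lemma pT_Dl (cB : J → Bool) (r : Bool) (ξ : Pr z y → Option J) :
    pT cB (Dl ξ) r = nb fun p => tt cB r (ξ p) := by
  unfold pT Dl nb
  rw [Finset.prod_comm]
  refine Finset.prod_congr rfl fun p _ => ?_
  show (∏ i ∈ univ.filter (fun j => cB j = r), if decide (ξ p = some i) = true then (p : ℕ) else 1) =
    if tt cB r (ξ p) = true then (p : ℕ) else 1
  cases h : ξ p with
  | none =>
    have e : tt cB r (none : Option J) = false := rfl
    rw [e]
    simp
  | some j =>
    have e : tt cB r (some j) = decide (cB j = r) := rfl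
    rw [e]
    simp only [Option.some.injEq, decide_eq_true_eq]
    rw [Finset.prod_filter]
    by_cases hj : cB j = r
    · rw [if_pos hj, Finset.prod_eq_single j]
      · simp [hj]
      · intro i _ hi
        rw [if_neg (show ¬ j = i from fun h => hi h.symm), ite_self]
      · intro h
        exact absurd (mem_univ _) h
    · rw [if_neg hj]
      refine Finset.prod_eq_one fun i _ => ?_
      by_cases hi : cB i = r
      · rw [if_pos hi, if_neg]
        intro h
        exact hj (h ▸ hi)
      · rw [if_neg hi]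

/-- the weights of the labels with a mark -/
noncomputable def TT (cB : J → Bool) (f : J → ℤ[X]) (c : ℕ) (p : ℕ) (x : Option J) (ε : Bool) : ℝ :=
  x.elim (if ε = true then 0 else 1) fun j => gaw (f j) (if cB j = true then 1 else 1 / 2) c p

lemma TT_prod (cB : J → Bool) (f : J → ℤ[X]) (c : ℕ) (ξ : Pr z y → Option J) (μ : Pr z y → Bool) :
    ∏ p : Pr z y, TT cB f c p (ξ p) (μ p) =
      (if ∀ p, μ p = true → (tt cB true (ξ p) || tt cB false (ξ p)) = true then 1 else 0) *
        ∏ p : Pr z y, (ξ p).elim 1 fun j => gaw (f j) (if cB j = true then 1 else 1 / 2) c p := by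
  have hs : ∀ j : J, (tt cB true (some j) || tt cB false (some j)) = true := by
    intro j
    simp only [tt, Option.elim]
    cases cB j <;> rfl
  by_cases h : ∀ p, μ p = true → (tt cB true (ξ p) || tt cB false (ξ p)) = true
  · rw [if_pos h, one_mul]
    refine Finset.prod_congr rfl fun p _ => ?_
    unfold TT
    cases hx : ξ p with
    | none =>
      have h1 := h p
      rw [hx] at h1
      have h2 : ¬ μ p = true := fun h3 => by
        have := h1 h3
        simp [tt] at this
      simp [h2]
    | some j => rfl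
  · rw [if_neg h, zero_mul]
    push Not at h
    obtain ⟨p, hp, hp2⟩ := h
    refine Finset.prod_eq_zero (mem_univ p) ?_
    cases hx : ξ p with
    | none => simp [TT, hp]
    | some j =>
      exfalso
      rw [hx] at hp2
      exact hp2 (hs j)

/-- the symbol in terms of the labels with a mark -/
noncomputable def GGt (cB : J → Bool) (ξ : Pr z y → Option J) (μ : Pr z y → Bool) : ℝ :=
  if ∃ p, (tt cB false (ξ p) && μ p) = true then
    Jr ((nb fun p => tt cB true (ξ p) && μ p : ℕ) : ℤ) (nb fun p => tt cB false (ξ p) && μ p) else 0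

lemma lhs_term (cB : J → Bool) (f : J → ℤ[X]) (c : ℕ) (ξ : Pr z y → Option J) :
    R1 (pT cB (Dl ξ) true) (pT cB (Dl ξ) false) * ∏ j, gm (gaw (f j) 1 c) (Dl ξ j) =
      ∑ μ : Pr z y → Bool, (∏ p : Pr z y, TT cB f c p (ξ p) (μ p)) * GGt cB ξ μ := by
  have hab : ∀ p, tt cB true (ξ p) = true → tt cB false (ξ p) = true → False := by
    intro p h1 h2
    cases hx : ξ p with
    | none =>
      rw [hx] at h1
      simp [tt] at h1
    | some j =>
      rw [hx] at h1 h2
      simp only [tt, Option.elim, decide_eq_true_eq] at h1 h2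
      rw [h1] at h2
      exact absurd h2 (by simp)
  set a : Pr z y → Bool := fun p => tt cB true (ξ p) with ha
  set b : Pr z y → Bool := fun p => tt cB false (ξ p) with hb
  -- the weights
  have hW : (∏ j, gm (gaw (f j) 1 c) (Dl ξ j)) / 2 ^ (nb b).primeFactors.card =
      ∏ p : Pr z y, (ξ p).elim 1 fun j => gaw (f j) (if cB j = true then 1 else 1 / 2) c p := by
    have h1 : ((2:ℝ) ^ (nb b).primeFactors.card)⁻¹ = ∏ p : Pr z y, if b p = true then (1 / 2 : ℝ) else 1 := by
      rw [← prod_pf b fun _ => (1 / 2 : ℝ), Finset.prod_const, ← inv_pow]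
      norm_num
    rw [Pool.Agent.L7h19.RP.prod_gm (fun j => gaw (f j) 1 c) ξ, div_eq_mul_inv, h1,
      ← Finset.prod_mul_distrib]
    refine Finset.prod_congr rfl fun p _ => ?_
    simp only [hb]
    cases hx : ξ p with
    | none => simp [tt]
    | some j =>
      simp only [tt, Option.elim, decide_eq_true_eq]
      unfold gaw
      cases hj : cB j
      · simp only [if_true, Bool.false_eq_true, if_false]
        ring
      · simp
  have hR : R1 (nb a) (nb b) = (∑ d ∈ (nb a).divisors, ∑ e ∈ (nb b).divisors,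
      if e ≠ 1 then Jr (d : ℤ) e else 0) / 2 ^ (nb b).primeFactors.card := by
    unfold R1
    congr 1
    refine Finset.sum_congr rfl fun d _ => ?_
    rw [← Finset.sum_filter, Finset.filter_ne']
  have h2 : R1 (pT cB (Dl ξ) true) (pT cB (Dl ξ) false) * ∏ j, gm (gaw (f j) 1 c) (Dl ξ j) =
      (∏ p : Pr z y, (ξ p).elim 1 fun j => gaw (f j) (if cB j = true then 1 else 1 / 2) c p) *
      ∑ d ∈ (nb a).divisors, ∑ e ∈ (nb b).divisors, if e ≠ 1 then Jr (d : ℤ) e else 0 := by
    rw [pT_Dl, pT_Dl, hR, ← hW]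
    ring
  rw [h2, ← sum_div a b hab fun d e => if e ≠ 1 then Jr (d : ℤ) e else 0, Finset.mul_sum,
    Finset.sum_filter]
  refine Finset.sum_congr rfl fun μ _ => ?_
  rw [TT_prod]
  by_cases hμ : ∀ p, μ p = true → (a p || b p) = true
  · rw [if_pos hμ, if_pos hμ, one_mul]
    congr 1
    unfold GGt
    refine if_congr (nb_ne_one _) rfl rfl
  · rw [if_neg hμ, if_neg hμ, zero_mul, zero_mul]

/-- forget the last mark -/
def fg (x : Option (J × Bool × Bool)) : Option J × Bool :=
  (x.map fun i => i.1, x.elim false fun i => i.2.1)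

lemma dec_T (cB : J → Bool) (x : Option (J × Bool × Bool)) :
    (tt cB true (fg x).1 && (fg x).2) = x.elim false fun i => cB i.1 && i.2.1 := by
  cases x with
  | none => rfl
  | some i =>
    simp only [fg, tt, Option.map_some, Option.elim]
    cases cB i.1 <;> rfl

lemma dec_F (cB : J → Bool) (x : Option (J × Bool × Bool)) :
    (tt cB false (fg x).1 && (fg x).2) = x.elim false fun i => !(cB i.1) && i.2.1 := by
  cases x with
  | none => rfl
  | some i =>
    simp only [fg, tt, Option.map_some, Option.elim]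
    cases cB i.1 <;> rfl

lemma Sym_eq (cB : J → Bool) (l : Pr z y → Option (J × Bool × Bool)) :
    Pool.Agent.W262.RK.Sym (LI cB) (fun _ => 1) (Dl l) =
      Jr ((nb fun p => tt cB true (fg (l p)).1 && (fg (l p)).2 : ℕ) : ℤ)
        (nb fun p => tt cB false (fg (l p)).1 && (fg (l p)).2) := by
  rw [Sym_Dl, Jr_nb_left]
  have h1 : ∏ p : Pr z y, ((l p).elim 1 fun _ => Jr 1 p) = (1 : ℝ) := by
    refine Finset.prod_eq_one fun p _ => ?_
    cases l p with
    | none => rfl
    | some i => exact Jr_one_left _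
  rw [h1, mul_one, Finset.prod_comm]
  refine Finset.prod_congr rfl fun q _ => ?_
  rw [Jr_nb_right]
  simp only [dec_T, dec_F]
  have hlk : ∀ p, Pool.Agent.W762.RK2.lk (LI cB) (l q) (l p) =
      (((l q).elim false fun i => cB i.1 && i.2.1) && ((l p).elim false fun i => !(cB i.1) && i.2.1)) := by
    intro p
    cases hq : l q with
    | none => rfl
    | some i =>
      cases hp : l p with
      | none => simp [Pool.Agent.W762.RK2.lk]
      | some k =>
        simp only [Pool.Agent.W762.RK2.lk, LI, Option.elim]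
        cases cB i.1 <;> cases cB k.1 <;> cases i.2.1 <;> cases k.2.1 <;> rfl
  simp only [hlk]
  cases (l q).elim false fun i => cB i.1 && i.2.1
  · simp
  · simp

/-- the local weights -/
noncomputable def WW (cB : J → Bool) (f : J → ℤ[X]) (c : ℕ) (p : ℕ) (x : Option (J × Bool × Bool)) :
    ℝ := x.elim 1 fun i => gaw (f i.1) (wI cB i) c p

lemma rhs_term (cB : J → Bool) (f : J → ℤ[X]) (c : ℕ) (l : Pr z y → Option (J × Bool × Bool)) :
    (if ∃ i : J × Bool × Bool, cB i.1 = false ∧ i.2.1 = true ∧ Dl l i ≠ 1 then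
      (∏ i : J × Bool × Bool, gm (gaw (f i.1) (wI cB i) c) (Dl l i)) *
        Pool.Agent.W262.RK.Sym (LI cB) (fun _ => 1) (Dl l) else 0) =
      (∏ p : Pr z y, WW cB f c p (l p)) *
        GGt cB (fun p => (fg (l p)).1) (fun p => (fg (l p)).2) := by
  rw [Pool.Agent.L7h19.RP.prod_gm (fun i : J × Bool × Bool => gaw (f i.1) (wI cB i) c) l, Sym_eq]
  have hc : (∃ i : J × Bool × Bool, cB i.1 = false ∧ i.2.1 = true ∧ Dl l i ≠ 1) ↔
      ∃ p, (tt cB false (fg (l p)).1 && (fg (l p)).2) = true := by
    simp only [dec_F]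
    constructor
    · rintro ⟨i, h1, h2, h3⟩
      obtain ⟨p, hp⟩ := (nb_ne_one _).1 h3
      refine ⟨p, ?_⟩
      rw [of_decide_eq_true hp]
      simp [h1, h2]
    · rintro ⟨p, hp⟩
      cases hx : l p with
      | none =>
        rw [hx] at hp
        simp at hp
      | some i =>
        rw [hx] at hp
        simp only [Option.elim, Bool.and_eq_true, Bool.not_eq_true'] at hp
        refine ⟨i, hp.1, hp.2, (nb_ne_one _).2 ⟨p, ?_⟩⟩
        rw [hx]
        simp
  by_cases h : ∃ i : J × Bool × Bool, cB i.1 = false ∧ i.2.1 = true ∧ Dl l i ≠ 1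
  · rw [if_pos h]
    unfold GGt
    rw [if_pos (hc.1 h)]
    rfl
  · rw [if_neg h]
    unfold GGt
    rw [if_neg fun h' => h (hc.2 h'), mul_zero]

lemma fiber (cB : J → Bool) (f : J → ℤ[X]) (c : ℕ) (p : ℕ) (x : Option J × Bool) :
    ∑ u ∈ univ.filter (fun u : Option (J × Bool × Bool) => fg u = x), WW cB f c p u =
      TT cB f c p x.1 x.2 := by
  obtain ⟨x, ε⟩ := x
  rw [Finset.sum_filter, Fintype.sum_option]
  cases x with
  | none =>
    have h1 : ∑ i : J × Bool × Bool, (if fg (some i) = ((none : Option J), ε) then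
        WW cB f c p (some i) else 0) = 0 := by
      refine Finset.sum_eq_zero fun i _ => if_neg ?_
      simp [fg]
    rw [h1, add_zero]
    cases ε
    · simp [fg, WW, TT]
    · simp [fg, TT]
  | some j =>
    have h0 : (if fg (none : Option (J × Bool × Bool)) = (some j, ε) then
        WW cB f c p (none : Option (J × Bool × Bool)) else 0) = 0 := by
      rw [if_neg]
      simp [fg]
    rw [h0, zero_add, Fintype.sum_prod_type, Finset.sum_eq_single j]
    · rw [Fintype.sum_prod_type, Finset.sum_eq_single ε]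
      · rw [Fintype.sum_bool]
        simp only [fg, Option.map_some, Option.elim, if_true, WW, TT, wI]
        unfold gaw
        cases hj : cB j
        · simp only [Bool.false_eq_true, if_false]
          ring
        · simp only [if_true]
          ring
      · intro ε' _ hε
        refine Finset.sum_eq_zero fun h _ => if_neg ?_
        simp [fg, hε]
      · intro h
        exact absurd (mem_univ _) h
    · intro j' _ hj
      refine Finset.sum_eq_zero fun h _ => if_neg ?_
      simp [fg, hj]
    · intro h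
      exact absurd (mem_univ _) h

/-- **S_EXP** -/
theorem s_EXP : S_EXP := by
  classical
  intro J _ _ cB f c z y _ _
  rw [sum_Tup fun s => R1 (pT cB s true) (pT cB s false) * ∏ j, gm (gaw (f j) 1 c) (s j),
    Finset.sum_filter,
    sum_Tup fun d : J × Bool × Bool → ℕ =>
      if ∃ i : J × Bool × Bool, cB i.1 = false ∧ i.2.1 = true ∧ d i ≠ 1 then
        (∏ i : J × Bool × Bool, gm (gaw (f i.1) (wI cB i) c) (d i)) *
          Pool.Agent.W262.RK.Sym (LI cB) (fun _ => 1) d else 0]
  rw [Finset.sum_congr rfl fun ξ _ => lhs_term cB f c ξ,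
    Finset.sum_congr rfl fun l _ => rhs_term cB f c l]
  rw [← Finset.sum_fiberwise univ
    (fun (l : Pr z y → Option (J × Bool × Bool)) => fun p => fg (l p))]
  have h1 : ∀ ζ : Pr z y → Option J × Bool,
      ∑ l ∈ univ.filter (fun l : Pr z y → Option (J × Bool × Bool) => (fun p => fg (l p)) = ζ),
        (∏ p : Pr z y, WW cB f c p (l p)) *
          GGt cB (fun p => (fg (l p)).1) (fun p => (fg (l p)).2) =
      (∏ p : Pr z y, TT cB f c p (ζ p).1 (ζ p).2) * GGt cB (fun p => (ζ p).1) (fun p => (ζ p).2) := by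
    intro ζ
    have h2 : (univ.filter fun l : Pr z y → Option (J × Bool × Bool) => (fun p => fg (l p)) = ζ) =
        Fintype.piFinset (fun p => univ.filter
          (fun x : Option (J × Bool × Bool) => fg x = ζ p)) := by
      ext l
      simp only [Finset.mem_filter, Finset.mem_univ, true_and, Fintype.mem_piFinset, funext_iff]
    rw [Finset.prod_congr rfl fun (p : Pr z y) _ => (fiber cB f c p (ζ p)).symm,
      Finset.prod_univ_sum, Finset.sum_mul, h2]
    refine Finset.sum_congr rfl fun l hl => ?_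
    rw [Fintype.mem_piFinset] at hl
    have h3 : ∀ p, fg (l p) = ζ p := fun p => (Finset.mem_filter.1 (hl p)).2
    simp only [h3]
  rw [Finset.sum_congr rfl fun ζ _ => h1 ζ]
  rw [← Fintype.sum_prod_type' (f := fun (ξ : Pr z y → Option J) (μ : Pr z y → Bool) =>
    (∏ p : Pr z y, TT cB f c p (ξ p) (μ p)) * GGt cB ξ μ)]
  refine (Fintype.sum_equiv (Equiv.arrowProdEquivProdArrow (Pr z y) (fun _ => Option J)
    (fun _ => Bool)) _ _ fun ζ => ?_).symm
  rfl

end Pool.Agent.L7h65.IS
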