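import Pool.Agent.L7h19.IS.Stm2
import Pool.Agent.L7h65.IS.Exp

/-!
# Project IS: the expansion `S_EXP2` of the product
-/

set_option autoImplicit false
set_option linter.all false

namespace Pool.Agent.L7h65.IS

open Finset Polynomial Pool.Agent.W262.RK Pool.Agent.W108.RK Pool.Agent.W762.RK2 Pool.Agent.L7h19.RP
  Pool.Agent.L7h19.IS
open Pool.Agent.L7h19.RP.AT (gm)

variable {J : Type} [Fintype J] [DecidableEq J] {z y : ℕ}

/-- the weights of the labels with two marks -/
noncomputable def T2 (f : J → ℤ[X]) (c : ℕ) (p : ℕ) (x : Option J) (ε : Bool × Bool) : ℝ :=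
  x.elim (if ε = (false, false) then 1 else 0) fun j => gaw (f j) (1 / 2) c p

lemma tt_some (cB : J → Bool) (j : J) : (tt cB true (some j) || tt cB false (some j)) = true := by
  simp only [tt, Option.elim]
  cases cB j <;> rfl

lemma T2_prod (cB : J → Bool) (f : J → ℤ[X]) (c : ℕ) (ξ : Pr z y → Option J)
    (μ ν : Pr z y → Bool) :
    ∏ p : Pr z y, T2 f c p (ξ p) (μ p, ν p) =
      ((if ∀ p, μ p = true → (tt cB true (ξ p) || tt cB false (ξ p)) = true then 1 else 0) *
        (if ∀ p, ν p = true → (tt cB false (ξ p) || tt cB true (ξ p)) = true then 1 else 0)) *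
        ∏ p : Pr z y, (ξ p).elim 1 fun j => gaw (f j) (1 / 2) c p := by
  have hs : ∀ j : J, (tt cB false (some j) || tt cB true (some j)) = true := by
    intro j
    rw [Bool.or_comm]
    exact tt_some cB j
  by_cases h : (∀ p, μ p = true → (tt cB true (ξ p) || tt cB false (ξ p)) = true) ∧
      ∀ p, ν p = true → (tt cB false (ξ p) || tt cB true (ξ p)) = true
  · rw [if_pos h.1, if_pos h.2, one_mul, one_mul]
    refine Finset.prod_congr rfl fun p _ => ?_
    unfold T2
    cases hx : ξ p with
    | none =>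
      have h1 := h.1 p
      have h2 := h.2 p
      rw [hx] at h1 h2
      have h3 : μ p = false := by
        by_contra h4
        have := h1 (by simpa using h4)
        simp [tt] at this
      have h5 : ν p = false := by
        by_contra h4
        have := h2 (by simpa using h4)
        simp [tt] at this
      simp [h3, h5]
    | some j => rfl
  · have h0 : ∃ p, ξ p = none ∧ (μ p, ν p) ≠ (false, false) := by
      by_contra hno
      push Not at hno
      apply h
      constructor
      · intro p hp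
        cases hx : ξ p with
        | none =>
          have := hno p hx
          rw [hp] at this
          simp at this
        | some j => exact tt_some cB j
      · intro p hp
        cases hx : ξ p with
        | none =>
          have := hno p hx
          rw [hp] at this
          simp at this
        | some j => exact hs j
    obtain ⟨p, hp, hp2⟩ := h0
    have h1 : ∏ p : Pr z y, T2 f c p (ξ p) (μ p, ν p) = 0 := by
      refine Finset.prod_eq_zero (mem_univ p) ?_
      unfold T2
      rw [hp]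
      simp only [Option.elim]
      rw [if_neg hp2]
    rw [h1]
    rw [not_and_or] at h
    rcases h with h | h
    · rw [if_neg h, zero_mul, zero_mul]
    · rw [if_neg h, mul_zero, zero_mul]

/-- the second symbol in terms of the labels with a mark -/
noncomputable def GGu (cB : J → Bool) (ξ : Pr z y → Option J) (μ : Pr z y → Bool) : ℝ :=
  if ∃ p, (tt cB true (ξ p) && μ p) = true then
    Jr ((nb fun p => tt cB false (ξ p) && μ p : ℕ) : ℤ) (nb fun p => tt cB true (ξ p) && μ p) else 0

lemma lhs_term2 (cB : J → Bool) (f : J → ℤ[X]) (c : ℕ) (ξ : Pr z y → Option J) :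
    R1 (pT cB (Dl ξ) true) (pT cB (Dl ξ) false) * R1 (pT cB (Dl ξ) false) (pT cB (Dl ξ) true) *
      ∏ j, gm (gaw (f j) 1 c) (Dl ξ j) =
      ∑ μ : Pr z y → Bool, ∑ ν : Pr z y → Bool, (∏ p : Pr z y, T2 f c p (ξ p) (μ p, ν p)) *
        (GGt cB ξ μ * GGu cB ξ ν) := by
  have hab : ∀ p, tt cB true (ξ p) = true → tt cB false (ξ p) = true → False := by
    intro p h1 h2
    cases hx : ξ p with
    | none =>
      rw [hx] at h1
      simp [tt] at h1
    | some j =>
      rw [hx] at h1 h2
      simp only [tt, Option.elim, decide_eq_true_eq] at h1 h2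
      rw [h1] at h2
      exact absurd h2 (by simp)
  set a : Pr z y → Bool := fun p => tt cB true (ξ p) with ha
  set b : Pr z y → Bool := fun p => tt cB false (ξ p) with hb
  -- the weights
  have hW : (∏ j, gm (gaw (f j) 1 c) (Dl ξ j)) / 2 ^ (nb b).primeFactors.card /
      2 ^ (nb a).primeFactors.card =
      ∏ p : Pr z y, (ξ p).elim 1 fun j => gaw (f j) (1 / 2) c p := by
    have h1 : ∀ b : Pr z y → Bool, ((2:ℝ) ^ (nb b).primeFactors.card)⁻¹ =
        ∏ p : Pr z y, if b p = true then (1 / 2 : ℝ) else 1 := by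
      intro b
      rw [← prod_pf b fun _ => (1 / 2 : ℝ), Finset.prod_const, ← inv_pow]
      norm_num
    rw [Pool.Agent.L7h19.RP.prod_gm (fun j => gaw (f j) 1 c) ξ, div_eq_mul_inv, div_eq_mul_inv,
      h1, h1, ← Finset.prod_mul_distrib, ← Finset.prod_mul_distrib]
    refine Finset.prod_congr rfl fun p _ => ?_
    simp only [ha, hb]
    cases hx : ξ p with
    | none => simp [tt]
    | some j =>
      simp only [tt, Option.elim, decide_eq_true_eq]
      unfold gaw
      cases hj : cB j
      · simp only [if_true, Bool.false_eq_true, if_false]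
        ring
      · simp only [if_true, Bool.true_eq_false, if_false]
        ring
  have hR1 : R1 (nb a) (nb b) = (∑ d ∈ (nb a).divisors, ∑ e ∈ (nb b).divisors,
      if e ≠ 1 then Jr (d : ℤ) e else 0) / 2 ^ (nb b).primeFactors.card := by
    unfold R1
    congr 1
    refine Finset.sum_congr rfl fun d _ => ?_
    rw [← Finset.sum_filter, Finset.filter_ne']
  have hR2 : R1 (nb b) (nb a) = (∑ d ∈ (nb b).divisors, ∑ e ∈ (nb a).divisors,
      if e ≠ 1 then Jr (d : ℤ) e else 0) / 2 ^ (nb a).primeFactors.card := by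
    unfold R1
    congr 1
    refine Finset.sum_congr rfl fun d _ => ?_
    rw [← Finset.sum_filter, Finset.filter_ne']
  have hF1 : ∀ μ : Pr z y → Bool,
      (if nb (fun p => b p && μ p) ≠ 1 then
        Jr ((nb fun p => a p && μ p : ℕ) : ℤ) (nb fun p => b p && μ p) else 0) = GGt cB ξ μ := by
    intro μ
    unfold GGt
    exact if_congr (nb_ne_one _) rfl rfl
  have hF2 : ∀ μ : Pr z y → Bool,
      (if nb (fun p => a p && μ p) ≠ 1 then
        Jr ((nb fun p => b p && μ p : ℕ) : ℤ) (nb fun p => a p && μ p) else 0) = GGu cB ξ μ := by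
    intro μ
    unfold GGu
    exact if_congr (nb_ne_one _) rfl rfl
  have h2 : R1 (pT cB (Dl ξ) true) (pT cB (Dl ξ) false) *
      R1 (pT cB (Dl ξ) false) (pT cB (Dl ξ) true) * ∏ j, gm (gaw (f j) 1 c) (Dl ξ j) =
      (∏ p : Pr z y, (ξ p).elim 1 fun j => gaw (f j) (1 / 2) c p) *
      ((∑ d ∈ (nb a).divisors, ∑ e ∈ (nb b).divisors, if e ≠ 1 then Jr (d : ℤ) e else 0) *
        ∑ d ∈ (nb b).divisors, ∑ e ∈ (nb a).divisors, if e ≠ 1 then Jr (d : ℤ) e else 0) := by
    rw [pT_Dl, pT_Dl, hR1, hR2, ← hW]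
    ring
  rw [h2, ← sum_div a b hab fun d e => if e ≠ 1 then Jr (d : ℤ) e else 0,
    ← sum_div b a (fun p h3 h4 => hab p h4 h3) fun d e => if e ≠ 1 then Jr (d : ℤ) e else 0,
    Finset.sum_filter, Finset.sum_filter, Finset.sum_mul_sum, Finset.mul_sum]
  refine Finset.sum_congr rfl fun μ _ => ?_
  rw [Finset.mul_sum]
  refine Finset.sum_congr rfl fun ν _ => ?_
  rw [T2_prod cB]
  rw [hF1, hF2]
  by_cases hμ : ∀ p, μ p = true → (a p || b p) = true
  · rw [if_pos hμ, if_pos hμ, one_mul]
    by_cases hν : ∀ p, ν p = true → (b p || a p) = true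
    · rw [if_pos hν, if_pos hν, one_mul]
    · rw [if_neg hν, if_neg hν, mul_zero, mul_zero, zero_mul, zero_mul]
  · rw [if_neg hμ, if_neg hμ, zero_mul, zero_mul, zero_mul, mul_zero, zero_mul]

/-- the label and the two marks -/
def fh (x : Option (J × Bool × Bool)) : Option J × Bool × Bool :=
  (x.map fun i => i.1, x.elim (false, false) fun i => i.2)

lemma dec_T1 (cB : J → Bool) (x : Option (J × Bool × Bool)) :
    (tt cB true (fh x).1 && (fh x).2.1) = x.elim false fun i => cB i.1 && i.2.1 := by
  cases x with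
  | none => rfl
  | some i =>
    simp only [fh, tt, Option.map_some, Option.elim]
    cases cB i.1 <;> rfl

lemma dec_F1 (cB : J → Bool) (x : Option (J × Bool × Bool)) :
    (tt cB false (fh x).1 && (fh x).2.1) = x.elim false fun i => !(cB i.1) && i.2.1 := by
  cases x with
  | none => rfl
  | some i =>
    simp only [fh, tt, Option.map_some, Option.elim]
    cases cB i.1 <;> rfl

lemma dec_T2 (cB : J → Bool) (x : Option (J × Bool × Bool)) :
    (tt cB true (fh x).1 && (fh x).2.2) = x.elim false fun i => cB i.1 && i.2.2 := by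
  cases x with
  | none => rfl
  | some i =>
    simp only [fh, tt, Option.map_some, Option.elim]
    cases cB i.1 <;> rfl

lemma dec_F2 (cB : J → Bool) (x : Option (J × Bool × Bool)) :
    (tt cB false (fh x).1 && (fh x).2.2) = x.elim false fun i => !(cB i.1) && i.2.2 := by
  cases x with
  | none => rfl
  | some i =>
    simp only [fh, tt, Option.map_some, Option.elim]
    cases cB i.1 <;> rfl

lemma Jr_pair (u v : Pr z y → Bool) :
    Jr ((nb u : ℕ) : ℤ) (nb v) = ∏ p : Pr z y, ∏ q : Pr z y,
      if (u p && v q) = true then Jr ((p : ℕ) : ℤ) q else 1 := by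
  rw [Jr_nb_left]
  refine Finset.prod_congr rfl fun p _ => ?_
  rw [Jr_nb_right]
  cases hu : u p
  · simp
  · simp

lemma ite_split (A B C D E F : Bool) (x : ℝ)
    [i1 : Decidable ((A && !B && C && E || !A && B && D && F) = true)]
    [i2 : Decidable ((A && C && (!B && E)) = true)] [i3 : Decidable ((!A && D && (B && F)) = true)] :
    (if (A && !B && C && E || !A && B && D && F) = true then x else 1) =
      (if (A && C && (!B && E)) = true then x else 1) *
        if (!A && D && (B && F)) = true then x else 1 := by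
  cases A <;> cases B <;> cases C <;> cases D <;> cases E <;> cases F <;> simp

lemma Sym_eq2 (cB : J → Bool) (l : Pr z y → Option (J × Bool × Bool)) :
    Pool.Agent.W262.RK.Sym (L2 cB) (fun _ => 1) (Dl l) =
      Jr ((nb fun p => tt cB true (fh (l p)).1 && (fh (l p)).2.1 : ℕ) : ℤ)
        (nb fun p => tt cB false (fh (l p)).1 && (fh (l p)).2.1) *
      Jr ((nb fun p => tt cB false (fh (l p)).1 && (fh (l p)).2.2 : ℕ) : ℤ)
        (nb fun p => tt cB true (fh (l p)).1 && (fh (l p)).2.2) := by
  rw [Sym_Dl, Jr_pair, Jr_pair]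
  have h1 : ∏ p : Pr z y, ((l p).elim 1 fun _ => Jr 1 p) = (1 : ℝ) := by
    refine Finset.prod_eq_one fun p _ => ?_
    cases l p with
    | none => rfl
    | some i => exact Jr_one_left _
  rw [h1, mul_one, Finset.prod_comm, ← Finset.prod_mul_distrib]
  refine Finset.prod_congr rfl fun q _ => ?_
  rw [← Finset.prod_mul_distrib]
  refine Finset.prod_congr rfl fun p _ => ?_
  simp only [dec_T1, dec_F1, dec_T2, dec_F2]
  cases hq : l q with
  | none =>
    have e : Pool.Agent.W762.RK2.lk (L2 cB) (none : Option (J × Bool × Bool)) (l p) = false := rfl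
    rw [e]
    simp
  | some i =>
    cases hp : l p with
    | none =>
      have e : Pool.Agent.W762.RK2.lk (L2 cB) (some i) (none : Option (J × Bool × Bool)) = false := rfl
      rw [e]
      simp
    | some k =>
      have e : Pool.Agent.W762.RK2.lk (L2 cB) (some i) (some k) = L2 cB i k := rfl
      rw [e]
      simp only [L2, Option.elim]
      exact ite_split _ _ _ _ _ _ _

/-- the local weights -/
noncomputable def W2 (f : J → ℤ[X]) (c : ℕ) (p : ℕ) (x : Option (J × Bool × Bool)) :
    ℝ := x.elim 1 fun i => gaw (f i.1) (1 / 2) c p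

lemma rhs_term2 (cB : J → Bool) (f : J → ℤ[X]) (c : ℕ) (l : Pr z y → Option (J × Bool × Bool)) :
    (if (∃ i : J × Bool × Bool, cB i.1 = false ∧ i.2.1 = true ∧ Dl l i ≠ 1) ∧
        ∃ i : J × Bool × Bool, cB i.1 = true ∧ i.2.2 = true ∧ Dl l i ≠ 1 then
      (∏ i : J × Bool × Bool, gm (gaw (f i.1) (1 / 2) c) (Dl l i)) *
        Pool.Agent.W262.RK.Sym (L2 cB) (fun _ => 1) (Dl l) else 0) =
      (∏ p : Pr z y, W2 f c p (l p)) *
        (GGt cB (fun p => (fh (l p)).1) (fun p => (fh (l p)).2.1) *
          GGu cB (fun p => (fh (l p)).1) (fun p => (fh (l p)).2.2)) := by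
  rw [Pool.Agent.L7h19.RP.prod_gm (fun i : J × Bool × Bool => gaw (f i.1) (1 / 2) c) l, Sym_eq2]
  have hc : (∃ i : J × Bool × Bool, cB i.1 = false ∧ i.2.1 = true ∧ Dl l i ≠ 1) ↔
      ∃ p, (tt cB false (fh (l p)).1 && (fh (l p)).2.1) = true := by
    simp only [dec_F1]
    constructor
    · rintro ⟨i, h1, h2, h3⟩
      obtain ⟨p, hp⟩ := (nb_ne_one _).1 h3
      refine ⟨p, ?_⟩
      rw [of_decide_eq_true hp]
      simp [h1, h2]
    · rintro ⟨p, hp⟩
      cases hx : l p with
      | none =>
        rw [hx] at hp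
        simp at hp
      | some i =>
        rw [hx] at hp
        simp only [Option.elim, Bool.and_eq_true, Bool.not_eq_true'] at hp
        refine ⟨i, hp.1, hp.2, (nb_ne_one _).2 ⟨p, ?_⟩⟩
        rw [hx]
        simp
  have hd : (∃ i : J × Bool × Bool, cB i.1 = true ∧ i.2.2 = true ∧ Dl l i ≠ 1) ↔
      ∃ p, (tt cB true (fh (l p)).1 && (fh (l p)).2.2) = true := by
    simp only [dec_T2]
    constructor
    · rintro ⟨i, h1, h2, h3⟩
      obtain ⟨p, hp⟩ := (nb_ne_one _).1 h3
      refine ⟨p, ?_⟩
      rw [of_decide_eq_true hp]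
      simp [h1, h2]
    · rintro ⟨p, hp⟩
      cases hx : l p with
      | none =>
        rw [hx] at hp
        simp at hp
      | some i =>
        rw [hx] at hp
        simp only [Option.elim, Bool.and_eq_true] at hp
        refine ⟨i, hp.1, hp.2, (nb_ne_one _).2 ⟨p, ?_⟩⟩
        rw [hx]
        simp
  unfold GGt GGu
  by_cases h : ∃ p, (tt cB false (fh (l p)).1 && (fh (l p)).2.1) = true
  · by_cases h' : ∃ p, (tt cB true (fh (l p)).1 && (fh (l p)).2.2) = true
    · rw [if_pos ⟨hc.2 h, hd.2 h'⟩, if_pos h, if_pos h']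
      rfl
    · rw [if_neg fun h2 => h' (hd.1 h2.2), if_neg h', mul_zero, mul_zero]
  · rw [if_neg fun h2 => h (hc.1 h2.1), if_neg h, zero_mul, mul_zero]

lemma fiber2 (f : J → ℤ[X]) (c : ℕ) (p : ℕ) (x : Option J × Bool × Bool) :
    ∑ u ∈ univ.filter (fun u : Option (J × Bool × Bool) => fh u = x), W2 f c p u =
      T2 f c p x.1 x.2 := by
  obtain ⟨x, ε⟩ := x
  rw [Finset.sum_filter, Fintype.sum_option]
  cases x with
  | none =>
    have h1 : ∑ i : J × Bool × Bool, (if fh (some i) = ((none : Option J), ε) then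
        W2 f c p (some i) else 0) = 0 := by
      refine Finset.sum_eq_zero fun i _ => if_neg ?_
      simp [fh]
    rw [h1, add_zero]
    simp only [fh, Option.map_none, Option.elim, Prod.mk.injEq, true_and, W2, T2]
    refine if_congr ?_ rfl rfl
    exact ⟨fun h => h.symm, fun h => h.symm⟩
  | some j =>
    have h0 : (if fh (none : Option (J × Bool × Bool)) = (some j, ε) then
        W2 f c p (none : Option (J × Bool × Bool)) else 0) = 0 := by
      rw [if_neg]
      simp [fh]
    rw [h0, zero_add, Finset.sum_eq_single (j, ε)]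
    · rw [if_pos]
      · rfl
      · rfl
    · rintro ⟨j', ε'⟩ _ hne
      refine if_neg fun h => hne ?_
      simp only [fh, Option.map_some, Option.elim, Prod.mk.injEq, Option.some.injEq] at h
      rw [h.1, h.2]
    · intro h
      exact absurd (mem_univ _) h

/-- **S_EXP2** -/
theorem s_EXP2 : S_EXP2 := by
  classical
  intro J _ _ cB f c z y _ _
  rw [sum_Tup fun s => R1 (pT cB s true) (pT cB s false) * R1 (pT cB s false) (pT cB s true) *
      ∏ j, gm (gaw (f j) 1 c) (s j),
    Finset.sum_filter,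
    sum_Tup fun d : J × Bool × Bool → ℕ =>
      if (∃ i : J × Bool × Bool, cB i.1 = false ∧ i.2.1 = true ∧ d i ≠ 1) ∧
        ∃ i : J × Bool × Bool, cB i.1 = true ∧ i.2.2 = true ∧ d i ≠ 1 then
        (∏ i : J × Bool × Bool, gm (gaw (f i.1) (1 / 2) c) (d i)) *
          Pool.Agent.W262.RK.Sym (L2 cB) (fun _ => 1) d else 0]
  rw [Finset.sum_congr rfl fun ξ _ => lhs_term2 cB f c ξ,
    Finset.sum_congr rfl fun l _ => rhs_term2 cB f c l]
  rw [← Finset.sum_fiberwise univ
    (fun (l : Pr z y → Option (J × Bool × Bool)) => fun p => fh (l p))]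
  have h1 : ∀ ζ : Pr z y → Option J × Bool × Bool,
      ∑ l ∈ univ.filter (fun l : Pr z y → Option (J × Bool × Bool) => (fun p => fh (l p)) = ζ),
        (∏ p : Pr z y, W2 f c p (l p)) *
          (GGt cB (fun p => (fh (l p)).1) (fun p => (fh (l p)).2.1) *
            GGu cB (fun p => (fh (l p)).1) (fun p => (fh (l p)).2.2)) =
      (∏ p : Pr z y, T2 f c p (ζ p).1 (ζ p).2) *
        (GGt cB (fun p => (ζ p).1) (fun p => (ζ p).2.1) *
          GGu cB (fun p => (ζ p).1) (fun p => (ζ p).2.2)) := by
    intro ζ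
    have h2 : (univ.filter fun l : Pr z y → Option (J × Bool × Bool) => (fun p => fh (l p)) = ζ) =
        Fintype.piFinset (fun p => univ.filter
          (fun x : Option (J × Bool × Bool) => fh x = ζ p)) := by
      ext l
      simp only [Finset.mem_filter, Finset.mem_univ, true_and, Fintype.mem_piFinset, funext_iff]
    rw [Finset.prod_congr rfl fun (p : Pr z y) _ => (fiber2 f c p (ζ p)).symm,
      Finset.prod_univ_sum, Finset.sum_mul, h2]
    refine Finset.sum_congr rfl fun l hl => ?_
    rw [Fintype.mem_piFinset] at hl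
    have h3 : ∀ p, fh (l p) = ζ p := fun p => (Finset.mem_filter.1 (hl p)).2
    simp only [h3]
  rw [Finset.sum_congr rfl fun ζ _ => h1 ζ]
  have h2 : ∀ ξ : Pr z y → Option J, ∑ μ : Pr z y → Bool, ∑ ν : Pr z y → Bool,
      (∏ p : Pr z y, T2 f c p (ξ p) (μ p, ν p)) * (GGt cB ξ μ * GGu cB ξ ν) =
      ∑ ρ : Pr z y → Bool × Bool, (∏ p : Pr z y, T2 f c p (ξ p) (ρ p)) *
        (GGt cB ξ (fun p => (ρ p).1) * GGu cB ξ (fun p => (ρ p).2)) := by
    intro ξ
    rw [← Fintype.sum_prod_type' (f := fun (μ ν : Pr z y → Bool) =>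
      (∏ p : Pr z y, T2 f c p (ξ p) (μ p, ν p)) * (GGt cB ξ μ * GGu cB ξ ν))]
    refine (Fintype.sum_equiv (Equiv.arrowProdEquivProdArrow (Pr z y) (fun _ => Bool)
      (fun _ => Bool)) _ _ fun ρ => ?_).symm
    rfl
  rw [Finset.sum_congr rfl fun ξ _ => h2 ξ]
  rw [← Fintype.sum_prod_type' (f := fun (ξ : Pr z y → Option J) (ρ : Pr z y → Bool × Bool) =>
    (∏ p : Pr z y, T2 f c p (ξ p) (ρ p)) *
      (GGt cB ξ (fun p => (ρ p).1) * GGu cB ξ (fun p => (ρ p).2)))]
  refine (Fintype.sum_equiv (Equiv.arrowProdEquivProdArrow (Pr z y) (fun _ => Option J)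
    (fun _ => Bool × Bool)) _ _ fun ζ => ?_).symm
  rfl

end Pool.Agent.L7h65.IS
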